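import Pool.Agent.Q287.LG.Defs

/-!
# Deterministic part: growth along a line, chain of nucleations
-/

set_option autoImplicit false

namespace Q287.LG

/-- the site at position `v` of the line number `l` in direction `d` (`true`: horizontal) -/
def site (d : Bool) (l v : ℕ) : ℤ × ℤ := if d then ((v : ℤ), (l : ℤ)) else ((l : ℤ), (v : ℤ))

lemma site_not (d : Bool) (l v : ℕ) : site (!d) l v = site d v l := by
  cases d <;> simp [site]

lemma site_inj {d : Bool} {l v l' v' : ℕ} : site d l v = site d l' v' ↔ l = l' ∧ v = v' := by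
  cases d <;> simp [site, Prod.ext_iff, and_comm]

lemma armH_finite (ρ : ℕ) (x : ℤ × ℤ) : (armH ρ x).Finite := by
  refine (((Finset.Icc (x.1 - ρ) (x.1 + ρ)) ×ˢ ({x.2} : Finset ℤ)).finite_toSet).subset ?_
  rintro y ⟨h1, h2⟩
  rw [abs_le] at h1
  simp only [Finset.coe_product, Finset.coe_Icc, Finset.coe_singleton, Set.mem_prod,
    Set.mem_Icc, Set.mem_singleton_iff]
  exact ⟨⟨by omega, by omega⟩, h2⟩

lemma armV_finite (ρ : ℕ) (x : ℤ × ℤ) : (armV ρ x).Finite := by
  refine (((({x.1} : Finset ℤ)) ×ˢ (Finset.Icc (x.2 - ρ) (x.2 + ρ))).finite_toSet).subset ?_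
  rintro y ⟨h1, h2⟩
  rw [abs_le] at h2
  simp only [Finset.coe_product, Finset.coe_Icc, Finset.coe_singleton, Set.mem_prod,
    Set.mem_Icc, Set.mem_singleton_iff]
  exact ⟨h1, ⟨by omega, by omega⟩⟩

lemma occ_mono {r ρ : ℕ} {ξ : Set (ℤ × ℤ)} {x : ℤ × ℤ} {s : ℕ} (t : ℕ) (h : x ∈ occ r ρ ξ s) :
    x ∈ occ r ρ ξ (s + t) := by
  induction t with
  | zero => exact h
  | succ t ih => exact Or.inl ih

/-- `r` occupied consecutive sites on a line next to `v` occupy the site `v` -/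
lemma step_site {r ρ : ℕ} (hρ : r ≤ ρ) {ξ : Set (ℤ × ℤ)} {d : Bool} {l v : ℕ}
    (h : ∀ w, v < w → w ≤ v + r → site d l w ∈ ξ) : site d l v ∈ step r ρ ξ := by
  right
  have hcard : ((Finset.Ioc v (v + r)).image (site d l)).card = r := by
    rw [Finset.card_image_of_injective]
    · simp
    · intro a b hab
      exact (site_inj.1 hab).2
  cases d with
  | true =>
    left
    rw [← hcard, ← Set.ncard_coe_finset]
    refine Set.ncard_le_ncard ?_ ((armH_finite ρ _).subset Set.inter_subset_left)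
    intro y hy
    simp only [Finset.coe_image, Finset.coe_Ioc, Set.mem_image, Set.mem_Ioc] at hy
    obtain ⟨w, ⟨hw1, hw2⟩, rfl⟩ := hy
    refine ⟨⟨?_, ?_⟩, h w hw1 hw2⟩
    · simp only [site, if_true]
      rw [abs_le]
      constructor <;> omega
    · simp [site]
  | false =>
    right
    rw [← hcard, ← Set.ncard_coe_finset]
    refine Set.ncard_le_ncard ?_ ((armV_finite ρ _).subset Set.inter_subset_left)
    intro y hy
    simp only [Finset.coe_image, Finset.coe_Ioc, Set.mem_image, Set.mem_Ioc] at hy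
    obtain ⟨w, ⟨hw1, hw2⟩, rfl⟩ := hy
    refine ⟨⟨?_, ?_⟩, h w hw1 hw2⟩
    · simp [site]
    · simp only [site, Bool.false_eq_true, if_false]
      rw [abs_le]
      constructor <;> omega

lemma grow {r ρ : ℕ} (hρ : r ≤ ρ) {ξ : Set (ℤ × ℤ)} {d : Bool} {l a s : ℕ}
    (h : ∀ v, a ≤ v → v < a + r → site d l v ∈ occ r ρ ξ s) :
    ∀ t v, a ≤ v + t → v < a + r → site d l v ∈ occ r ρ ξ (s + t) := by
  intro t
  induction t with
  | zero => intro v h1 h2; exact h v h1 h2
  | succ t ih =>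
    intro v h1 h2
    by_cases h3 : a ≤ v + t
    · exact occ_mono (s := s + t) 1 (ih v h3 h2)
    · refine step_site hρ (ξ := occ r ρ ξ (s + t)) (fun w hw1 hw2 => ih w (by omega) (by omega))

/-- sizes of the nested windows -/
def N (r : ℕ) (m : ℕ → ℕ) : ℕ → ℕ
  | 0 => 1
  | i + 1 => N r m i + r * m i

/-- the line number `a` of the block `j` of the class `i` -/
def ln (r : ℕ) (m : ℕ → ℕ) (i j a : ℕ) : ℕ := N r m i + r * j + a

lemma ln_lt {r : ℕ} {m : ℕ → ℕ} {i j a : ℕ} (hj : j < m i) (ha : a < r) :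
    ln r m i j a < N r m (i + 1) := by
  unfold ln
  rw [N]
  have h1 : r * (j + 1) ≤ r * m i := Nat.mul_le_mul_left r hj
  rw [Nat.mul_add, Nat.mul_one] at h1
  omega

lemma le_ln {r : ℕ} {m : ℕ → ℕ} {i j a : ℕ} : N r m i ≤ ln r m i j a := by
  unfold ln; omega

lemma N_mono {r : ℕ} {m : ℕ → ℕ} {i : ℕ} : N r m i ≤ N r m (i + 1) := by
  rw [N]; omega

lemma ln_inj {r : ℕ} {m : ℕ → ℕ} {i j a j' a' : ℕ} (ha : a < r) (ha' : a' < r)
    (h : ln r m i j a = ln r m i j' a') : j = j' ∧ a = a' := by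
  unfold ln at h
  have h1 : r * j + a = r * j' + a' := by omega
  have hr : 0 < r := by omega
  have h2 : j = j' := by
    have e1 : (r * j + a) / r = j := by
      rw [Nat.mul_add_div hr, Nat.div_eq_of_lt ha, add_zero]
    have e2 : (r * j' + a') / r = j' := by
      rw [Nat.mul_add_div hr, Nat.div_eq_of_lt ha', add_zero]
    rw [← e1, ← e2, h1]
  subst h2
  exact ⟨rfl, by omega⟩

/-- the event that the line number `l` perpendicular to the good blocks `A` of the class `i`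
is nucleated -/
def nuc (r : ℕ) (m : ℕ → ℕ) (i : ℕ) (A : Finset ℕ) (d : Bool) (l : ℕ) :
    Set (ℤ × ℤ → Bool) :=
  {ω | ∃ j ∈ A, ω (site (!d) l (ln r m i j (r - 1))) = true}

open Classical in
/-- the good blocks of the class `i`, when `A` are the good blocks of the class `i + 1` -/
noncomputable def next (r : ℕ) (m : ℕ → ℕ) (i : ℕ) (A : Finset ℕ) (d : Bool)
    (ω : ℤ × ℤ → Bool) : Finset ℕ :=
  (Finset.range (m i)).filter
    (fun j' => ∀ a ∈ Finset.range (r - 1), ω ∈ nuc r m (i + 1) A d (ln r m i j' a))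

lemma next_subset {r : ℕ} {m : ℕ → ℕ} {i : ℕ} {A : Finset ℕ} {d : Bool} {ω : ℤ × ℤ → Bool} :
    next r m i A d ω ⊆ Finset.range (m i) := by
  classical
  exact Finset.filter_subset _ _

lemma mem_next {r : ℕ} {m : ℕ → ℕ} {i : ℕ} {A : Finset ℕ} {d : Bool} {ω : ℤ × ℤ → Bool}
    {j : ℕ} : j ∈ next r m i A d ω ↔ j < m i ∧
      ∀ a ∈ Finset.range (r - 1), ω ∈ nuc r m (i + 1) A d (ln r m i j a) := by
  simp only [next, Finset.mem_filter, Finset.mem_range]

/-- the event that the chain of nucleations arrives at the origin -/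
def Succ (r : ℕ) (m : ℕ → ℕ) : ℕ → Finset ℕ → Bool → Set (ℤ × ℤ → Bool)
  | 0, A, d => nuc r m 0 A d 0
  | i + 1, A, d => {ω | ω ∈ Succ r m i (next r m i A d ω) (!d)}

/-- the time which is needed -/
def tau (r : ℕ) (m : ℕ → ℕ) : ℕ → ℕ
  | 0 => N r m 1
  | i + 1 => tau r m i + N r m (i + 2)

/-- a nucleated line is full after some time -/
lemma nuc_full {r ρ : ℕ} (hr : 1 ≤ r) (hρ : r ≤ ρ) {m : ℕ → ℕ} {i : ℕ} {A : Finset ℕ}
    (hA : A ⊆ Finset.range (m i)) {d : Bool} {ω : ℤ × ℤ → Bool} {s l : ℕ} (hl : l < N r m i)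
    (h : ∀ j ∈ A, ∀ a < r - 1, ∀ v < N r m i, site d (ln r m i j a) v ∈ occ r ρ (init ω) s)
    (hn : ω ∈ nuc r m i A d l) {v : ℕ} (hv : v < N r m i) :
    site (!d) l v ∈ occ r ρ (init ω) (s + N r m (i + 1)) := by
  obtain ⟨j, hj, hω⟩ := hn
  have hj' : j < m i := Finset.mem_range.1 (hA hj)
  have h1 : ∀ w, ln r m i j 0 ≤ w → w < ln r m i j 0 + r →
      site (!d) l w ∈ occ r ρ (init ω) s := by
    intro w hw1 hw2
    obtain ⟨a, rfl⟩ : ∃ a, w = ln r m i j a := ⟨w - ln r m i j 0, by unfold ln at *; omega⟩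
    have ha : a < r := by unfold ln at hw2; omega
    rcases Nat.lt_or_ge a (r - 1) with h2 | h2
    · rw [site_not]
      exact h j hj a h2 l hl
    · have h3 : a = r - 1 := by omega
      subst h3
      have h4 : site (!d) l (ln r m i j (r - 1)) ∈ occ r ρ (init ω) 0 := hω
      have h5 := occ_mono s h4
      rwa [zero_add] at h5
  have h2 := grow hρ h1 (N r m (i + 1)) v
    (by have := ln_lt (r := r) (m := m) (i := i) (j := j) (a := 0) hj' (by omega); omega)
    (by have := le_ln (r := r) (m := m) (i := i) (j := j) (a := 0); omega)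
  exact h2

theorem det {r ρ : ℕ} (hr : 1 ≤ r) (hρ : r ≤ ρ) {m : ℕ → ℕ} : ∀ (i : ℕ) (A : Finset ℕ)
    (_ : A ⊆ Finset.range (m i)) (d : Bool) (ω : ℤ × ℤ → Bool) (s : ℕ),
    (∀ j ∈ A, ∀ a < r - 1, ∀ v < N r m i, site d (ln r m i j a) v ∈ occ r ρ (init ω) s) →
    ω ∈ Succ r m i A d → ((0, 0) : ℤ × ℤ) ∈ occ r ρ (init ω) (s + tau r m i) := by
  intro i
  induction i with
  | zero =>
    intro A hA d ω s h hω
    have h1 := nuc_full hr hρ hA (l := 0) (by simp [N]) h hω (v := 0) (by simp [N])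
    have h2 : site (!d) 0 0 = (0, 0) := by cases d <;> simp [site]
    rw [h2] at h1
    exact h1
  | succ i ih =>
    intro A hA d ω s h hω
    have h1 := ih (next r m i A d ω) next_subset (!d) ω (s + N r m (i + 2)) ?_ hω
    · rw [tau, ← add_assoc, add_right_comm]
      exact h1
    · intro j hj a ha v hv
      rw [mem_next] at hj
      refine nuc_full hr hρ hA ?_ h (hj.2 a (Finset.mem_range.2 ha)) ?_
      · exact ln_lt hj.1 (by omega)
      · exact hv.trans_le N_mono

/-- the event that the line number `l` is nucleated by `r` occupied sites in a block of the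
class `i` -/
def nuc1 (r : ℕ) (m : ℕ → ℕ) (i : ℕ) (l : ℕ) : Set (ℤ × ℤ → Bool) :=
  {ω | ∃ j ∈ Finset.range (m i), ∀ a ∈ Finset.range r, ω (site true l (ln r m i j a)) = true}

open Classical in
/-- the good blocks of the class `i` at the beginning -/
noncomputable def first (r : ℕ) (m : ℕ → ℕ) (i : ℕ) (ω : ℤ × ℤ → Bool) : Finset ℕ :=
  (Finset.range (m i)).filter
    (fun j' => ∀ a ∈ Finset.range (r - 1), ω ∈ nuc1 r m (i + 1) (ln r m i j' a))

lemma first_subset {r : ℕ} {m : ℕ → ℕ} {i : ℕ} {ω : ℤ × ℤ → Bool} :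
    first r m i ω ⊆ Finset.range (m i) := by
  classical
  exact Finset.filter_subset _ _

lemma mem_first {r : ℕ} {m : ℕ → ℕ} {i : ℕ} {ω : ℤ × ℤ → Bool} {j : ℕ} :
    j ∈ first r m i ω ↔ j < m i ∧
      ∀ a ∈ Finset.range (r - 1), ω ∈ nuc1 r m (i + 1) (ln r m i j a) := by
  simp only [first, Finset.mem_filter, Finset.mem_range]

theorem det_first {r ρ : ℕ} (hr : 1 ≤ r) (hρ : r ≤ ρ) {m : ℕ → ℕ} (i : ℕ)
    (ω : ℤ × ℤ → Bool) (hω : ω ∈ Succ r m i (first r m i ω) true) :
    ((0, 0) : ℤ × ℤ) ∈ occ r ρ (init ω) (N r m (i + 2) + tau r m i) := by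
  refine det hr hρ i (first r m i ω) first_subset true ω (N r m (i + 2)) ?_ hω
  intro j' hj' a ha v hv
  rw [mem_first] at hj'
  obtain ⟨j, hj, h1⟩ := hj'.2 a (Finset.mem_range.2 ha)
  rw [Finset.mem_range] at hj
  have h2 : ∀ w, ln r m (i + 1) j 0 ≤ w → w < ln r m (i + 1) j 0 + r →
      site true (ln r m i j' a) w ∈ occ r ρ (init ω) 0 := by
    intro w hw1 hw2
    obtain ⟨b, rfl⟩ : ∃ b, w = ln r m (i + 1) j b :=
      ⟨w - ln r m (i + 1) j 0, by unfold ln at *; omega⟩
    exact h1 b (Finset.mem_range.2 (by unfold ln at hw2; omega))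
  have h3 := grow hρ h2 (N r m (i + 2)) v
    (by
      have h5 := ln_lt (r := r) (m := m) (i := i + 1) (j := j) (a := 0) hj (by omega)
      change ln r m (i + 1) j 0 < N r m (i + 2) at h5
      omega)
    (by
      have := le_ln (r := r) (m := m) (i := i + 1) (j := j) (a := 0)
      have := N_mono (r := r) (m := m) (i := i)
      omega)
  rwa [zero_add] at h3

end Q287.LG
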