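import Pool.Agent.Q287.LG.Dep
import Pool.Agent.Q287.LG.Grow

/-!
# Probability of the chain of nucleations
-/

open MeasureTheory Filter Topology ProbabilityTheory

set_option autoImplicit false

namespace Q287.LG

variable {p : ℝ}

/-- the number of the blocks all of whose lines have a property -/
lemma block_count [hp : Fact (0 ≤ p ∧ p ≤ 1)] {M b : ℕ} (hM : 0 < M)
    (E : ℕ → ℕ → Set (ℤ × ℤ → Bool)) (S : ℕ → ℕ → Finset (ℤ × ℤ))
    (hdep : ∀ j < M, ∀ a < b, DependsOn (fun ω => ω ∈ E j a) (S j a : Set (ℤ × ℤ)))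
    (hdis : ∀ j < M, ∀ a < b, ∀ j' < M, ∀ a' < b, (j ≠ j' ∨ a ≠ a') →
      Disjoint (S j a) (S j' a')) {q : ℝ} (hq : 0 < q)
    (h : ∀ j < M, ∀ a < b, q ≤ (law p).real (E j a)) (B : (ℤ × ℤ → Bool) → Finset ℕ)
    (hB : ∀ ω j, j ∈ B ω ↔ j < M ∧ ∀ a ∈ Finset.range b, ω ∈ E j a) :
    1 - 4 / (M * q ^ b) ≤ (law p).real {ω | (M : ℝ) * q ^ b / 2 ≤ ((B ω).card : ℝ)} := by
  classical
  have h1 := count_lower (p := p) (Finset.range M) (fun j => {ω | ∀ a ∈ Finset.range b, ω ∈ E j a})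
    (fun j => (Finset.range b).biUnion (S j)) ?_ ?_ (q := q ^ b) (by positivity)
    (Finset.nonempty_range_iff.2 (by omega)) ?_ (fun ω => (B ω).card) ?_
  · rw [Finset.card_range] at h1
    exact h1
  · intro j hj x y hxy
    simp only [Set.mem_ofPred_eq, eq_iff_iff]
    refine forall₂_congr (fun a ha => ?_)
    have := hdep j (Finset.mem_range.1 hj) a (Finset.mem_range.1 ha) (x := x) (y := y)
      (fun i hi => hxy i (by
        simp only [Finset.coe_biUnion, Set.mem_iUnion]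
        exact ⟨a, ha, hi⟩))
    simpa using this
  · intro j hj j' hj' hne
    simp only [Finset.coe_range, Set.mem_Iio] at hj hj'
    simp only [Function.onFun]
    rw [Finset.disjoint_biUnion_left]
    intro a ha
    rw [Finset.disjoint_biUnion_right]
    intro a' ha'
    exact hdis j hj a (Finset.mem_range.1 ha) j' hj' a' (Finset.mem_range.1 ha') (Or.inl hne)
  · intro j hj
    rw [Finset.mem_range] at hj
    rw [prob_forall (p := p) (Finset.range b) (E j) (S j)
      (fun a ha => hdep j hj a (Finset.mem_range.1 ha))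
      (fun a ha a' ha' hne => hdis j hj a (by simpa using ha) j hj a' (by simpa using ha')
        (Or.inr hne))]
    have : q ^ b = ∏ _a ∈ Finset.range b, q := by simp
    rw [this]
    exact Finset.prod_le_prod (fun _ _ => hq.le) (fun a ha => h j hj a (Finset.mem_range.1 ha))
  · intro ω
    have h2 : B ω = (Finset.range M).filter (fun j => ∀ a ∈ Finset.range b, ω ∈ E j a) := by
      ext j
      rw [hB, Finset.mem_filter, Finset.mem_range]
    rw [h2, Finset.card_filter]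
    push_cast
    refine Finset.sum_congr rfl (fun j _ => ?_)
    simp only [Set.indicator, Set.mem_ofPred_eq]

lemma ln_pos_inj {r : ℕ} (hr : 1 ≤ r) {m : ℕ → ℕ} {i j j' a : ℕ}
    (h : ln r m i j a = ln r m i j' a) : j = j' := by
  unfold ln at h
  have h1 : r * j = r * j' := by omega
  exact Nat.eq_of_mul_eq_mul_left (by omega) h1

open Classical in
/-- the sites which are used for the nucleation of a line -/
noncomputable def nS (r : ℕ) (m : ℕ → ℕ) (i : ℕ) (A : Finset ℕ) (d : Bool) (l : ℕ) :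
    Finset (ℤ × ℤ) := A.image (fun j => site (!d) l (ln r m i j (r - 1)))

lemma mem_nS {r : ℕ} {m : ℕ → ℕ} {i : ℕ} {A : Finset ℕ} {d : Bool} {l : ℕ} {x : ℤ × ℤ} :
    x ∈ nS r m i A d l ↔ ∃ j ∈ A, site (!d) l (ln r m i j (r - 1)) = x := by
  simp only [nS, Finset.mem_image]

lemma nuc_dep {r : ℕ} {m : ℕ → ℕ} {i : ℕ} {A : Finset ℕ} {d : Bool} {l : ℕ} :
    DependsOn (fun ω => ω ∈ nuc r m i A d l) (nS r m i A d l : Set (ℤ × ℤ)) := by
  intro x y hxy
  simp only [nuc, Set.mem_ofPred_eq, eq_iff_iff]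
  refine exists_congr (fun j => and_congr_right (fun hj => ?_))
  rw [hxy _ (by
    simp only [Finset.mem_coe, mem_nS]
    exact ⟨j, hj, rfl⟩)]

lemma nuc_prob [hp : Fact (0 ≤ p ∧ p ≤ 1)] {r : ℕ} (hr : 1 ≤ r) {m : ℕ → ℕ} {i : ℕ}
    {A : Finset ℕ} {d : Bool} {l : ℕ} :
    (law p).real (nuc r m i A d l) = 1 - (1 - p) ^ A.card := by
  have h1 : (nuc r m i A d l)ᶜ = {ω | ∀ s ∈ nS r m i A d l, ω s = false} := by
    ext ω
    simp only [nuc, Set.mem_compl_iff, Set.mem_ofPred_eq, not_exists, not_and, Bool.not_eq_true,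
      mem_nS]
    constructor
    · rintro h s ⟨j, hj, rfl⟩
      exact h j hj
    · intro h j hj
      exact h _ ⟨j, hj, rfl⟩
  have h2 := prob_closed (p := p) (nS r m i A d l) false
  rw [← h1, probReal_compl_eq_one_sub (dep_measurable nuc_dep)] at h2
  have h3 : (nS r m i A d l).card = A.card := by
    unfold nS
    refine Finset.card_image_of_injective _ (fun j j' h => ?_)
    exact ln_pos_inj hr (site_inj.1 h).2
  rw [h3] at h2
  simp only [Bool.false_eq_true, if_false] at h2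
  linarith

lemma nS_disj {r : ℕ} {m : ℕ → ℕ} {i : ℕ} {A : Finset ℕ} {d : Bool} {l l' : ℕ} (h : l ≠ l') :
    Disjoint (nS r m i A d l) (nS r m i A d l') := by
  rw [Finset.disjoint_left]
  intro x hx hx'
  rw [mem_nS] at hx hx'
  obtain ⟨j, _, rfl⟩ := hx
  obtain ⟨j', _, h2⟩ := hx'
  exact h (site_inj.1 h2).1.symm

lemma one_sub_pow_le_exp [hp : Fact (0 ≤ p ∧ p ≤ 1)] {n : ℕ} {g : ℝ} (hg : g ≤ n) :
    (1 - p) ^ n ≤ Real.exp (-(p * g)) := by
  have h1 : (1 - p) ≤ Real.exp (-p) := by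
    have := Real.add_one_le_exp (-p)
    linarith
  calc (1 - p) ^ n ≤ Real.exp (-p) ^ n := pow_le_pow_left₀ (by linarith [hp.1.2]) h1 n
    _ = Real.exp (-(p * n)) := by rw [← Real.exp_nat_mul]; congr 1; ring
    _ ≤ Real.exp (-(p * g)) := by
        apply Real.exp_le_exp.2
        have := mul_le_mul_of_nonneg_left hg hp.1.1
        linarith

/-- the number of good blocks of the next class -/
lemma next_count [hp : Fact (0 ≤ p ∧ p ≤ 1)] {r : ℕ} (hr : 1 ≤ r) {m : ℕ → ℕ} {i : ℕ}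
    (hm : 0 < m i) {A : Finset ℕ} {d : Bool} {q g : ℝ} (hq : 0 < q)
    (hg : g ≤ A.card) (hstep : q ≤ 1 - Real.exp (-(p * g))) :
    1 - 4 / (m i * q ^ (r - 1)) ≤
      (law p).real {ω | (m i : ℝ) * q ^ (r - 1) / 2 ≤ ((next r m i A d ω).card : ℝ)} := by
  refine block_count hm (fun j a => nuc r m (i + 1) A d (ln r m i j a))
    (fun j a => nS r m (i + 1) A d (ln r m i j a)) (fun _ _ _ _ => nuc_dep) ?_ hq ?_ _
    (fun ω j => mem_next)
  · intro j hj a ha j' hj' a' ha' hne
    refine nS_disj (fun h => ?_)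
    obtain ⟨h1, h2⟩ := ln_inj (by omega) (by omega) h
    rcases hne with h3 | h3
    · exact h3 h1
    · exact h3 h2
  · intro j hj a ha
    rw [nuc_prob hr]
    have := one_sub_pow_le_exp (p := p) hg
    linarith

open Classical in
/-- the sites with nonnegative coordinates whose maximum is in `[a, b)` -/
noncomputable def shell (a b : ℕ) : Finset (ℤ × ℤ) :=
  ((Finset.range b ×ˢ Finset.range b).filter (fun x => a ≤ max x.1 x.2)).image
    (fun x => ((x.1 : ℤ), (x.2 : ℤ)))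

lemma mem_shell {a b : ℕ} {d : Bool} {l v : ℕ} (hl : l < b) (hv : v < b) (h : a ≤ max l v) :
    site d l v ∈ shell a b := by
  simp only [shell, Finset.mem_image, Finset.mem_filter, Finset.mem_product, Finset.mem_range,
    Prod.exists]
  cases d with
  | true => exact ⟨v, l, ⟨⟨hv, hl⟩, by rwa [max_comm]⟩, by simp [site]⟩
  | false => exact ⟨l, v, ⟨⟨hl, hv⟩, h⟩, by simp [site]⟩

lemma shell_disj {a b c : ℕ} (h : c ≤ a) : Disjoint (shell a b) (shell 0 c) := by
  rw [Finset.disjoint_left]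
  intro x hx hx'
  simp only [shell, Finset.mem_image, Finset.mem_filter, Finset.mem_product, Finset.mem_range,
    Prod.exists] at hx hx'
  obtain ⟨u, v, ⟨⟨h1, h2⟩, h3⟩, rfl⟩ := hx
  obtain ⟨u', v', ⟨⟨h4, h5⟩, -⟩, h6⟩ := hx'
  rw [Prod.ext_iff] at h6
  simp only [Nat.cast_inj] at h6
  omega

lemma shell_mono {a a' b b' : ℕ} (h : a' ≤ a) (h' : b ≤ b') : shell a b ⊆ shell a' b' := by
  intro x hx
  simp only [shell, Finset.mem_image, Finset.mem_filter, Finset.mem_product, Finset.mem_range,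
    Prod.exists] at hx ⊢
  obtain ⟨u, v, ⟨⟨h1, h2⟩, h3⟩, rfl⟩ := hx
  exact ⟨u, v, ⟨⟨by omega, by omega⟩, by omega⟩, rfl⟩

lemma nS_subset {r : ℕ} (hr : 1 ≤ r) {m : ℕ → ℕ} {i : ℕ} {A : Finset ℕ}
    (hA : A ⊆ Finset.range (m i)) {d : Bool} {l : ℕ} (hl : l < N r m i) :
    nS r m i A d l ⊆ shell (N r m i) (N r m (i + 1)) := by
  intro x hx
  rw [mem_nS] at hx
  obtain ⟨j, hj, rfl⟩ := hx
  have h1 := ln_lt (r := r) (m := m) (i := i) (j := j) (a := r - 1)
    (Finset.mem_range.1 (hA hj)) (by omega)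
  have h2 := le_ln (r := r) (m := m) (i := i) (j := j) (a := r - 1)
  exact mem_shell (by omega) h1 (le_max_of_le_right h2)

lemma next_dep {r : ℕ} (hr : 1 ≤ r) {m : ℕ → ℕ} {i : ℕ} {A : Finset ℕ}
    (hA : A ⊆ Finset.range (m (i + 1))) {d : Bool} :
    DependsOn (fun ω => next r m i A d ω)
      (shell (N r m (i + 1)) (N r m (i + 2)) : Set (ℤ × ℤ)) := by
  intro x y hxy
  ext j
  simp only [mem_next]
  refine and_congr_right (fun hj => forall₂_congr (fun a ha => ?_))
  have ha' := Finset.mem_range.1 ha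
  have h1 := nuc_dep (r := r) (m := m) (i := i + 1) (A := A) (d := d) (l := ln r m i j a)
    (x := x) (y := y) (fun s hs => hxy s (nS_subset hr hA (ln_lt hj (by omega)) hs))
  simpa using h1

lemma succ_dep {r : ℕ} (hr : 1 ≤ r) {m : ℕ → ℕ} : ∀ (i : ℕ) (A : Finset ℕ)
    (_ : A ⊆ Finset.range (m i)) (d : Bool),
    DependsOn (fun ω => ω ∈ Succ r m i A d) (shell 0 (N r m (i + 1)) : Set (ℤ × ℤ)) := by
  intro i
  induction i with
  | zero =>
    intro A hA d x y hxy
    exact nuc_dep (r := r) (m := m) (i := 0) (A := A) (d := d) (l := 0) (x := x) (y := y)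
      (fun s hs => hxy s (shell_mono (Nat.zero_le _) le_rfl
        (nS_subset hr hA (by simp [N]) hs)))
  | succ i ih =>
    intro A hA d x y hxy
    have h1 : next r m i A d x = next r m i A d y :=
      next_dep hr hA (fun s hs => hxy s (shell_mono (Nat.zero_le _) le_rfl hs))
    have h2 := ih (next r m i A d x) next_subset (!d) (x := x) (y := y)
      (fun s hs => hxy s (shell_mono le_rfl N_mono hs))
    simp only [Succ, Set.mem_ofPred_eq]
    rw [← h1]
    exact h2

/-- from a random set which depends on an outer shell to the chain -/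
lemma combine [hp : Fact (0 ≤ p ∧ p ≤ 1)] {r : ℕ} (hr : 1 ≤ r) {m : ℕ → ℕ} {i : ℕ} {d : Bool}
    (B : (ℤ × ℤ → Bool) → Finset ℕ) (hB : ∀ ω, B ω ⊆ Finset.range (m i))
    {S : Finset (ℤ × ℤ)} (hBS : DependsOn B (S : Set (ℤ × ℤ)))
    (hS : Disjoint S (shell 0 (N r m (i + 1)))) {g v e : ℝ} (he : 0 ≤ e) (hv1 : v ≤ 1)
    (hcount : 1 - e ≤ (law p).real {ω | g ≤ ((B ω).card : ℝ)})
    (hv : ∀ A ⊆ Finset.range (m i), g ≤ (A.card : ℝ) → v ≤ (law p).real (Succ r m i A d)) :
    v - e ≤ (law p).real {ω | ω ∈ Succ r m i (B ω) d} := by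
  classical
  set G := (Finset.range (m i)).powerset.filter (fun A => g ≤ (A.card : ℝ)) with hG
  have hdB : ∀ A, DependsOn (fun ω => ω ∈ {ω | B ω = A}) (S : Set (ℤ × ℤ)) := by
    intro A x y hxy
    simp only [Set.mem_ofPred_eq]
    rw [hBS hxy]
  have h1 : (law p).real (⋃ A ∈ G, ({ω | B ω = A} ∩ Succ r m i A d)) =
      ∑ A ∈ G, (law p).real ({ω | B ω = A} ∩ Succ r m i A d) := by
    refine measureReal_biUnion_finset ?_ ?_
    · intro A _ A' _ hne
      simp only [Function.onFun]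
      rw [Set.disjoint_left]
      rintro ω ⟨hω, -⟩ ⟨hω', -⟩
      exact hne (hω.symm.trans hω')
    · intro A hA
      have hA' : A ⊆ Finset.range (m i) := Finset.mem_powerset.1 (Finset.mem_filter.1 hA).1
      exact (dep_measurable (hdB A)).inter (dep_measurable (succ_dep hr i A hA' d))
  have h2 : (law p).real {ω | g ≤ ((B ω).card : ℝ)} =
      ∑ A ∈ G, (law p).real {ω | B ω = A} := by
    have h3 : {ω | g ≤ ((B ω).card : ℝ)} = ⋃ A ∈ G, {ω | B ω = A} := by
      ext ω
      simp only [Set.mem_ofPred_eq, Set.mem_iUnion, exists_prop, hG, Finset.mem_filter,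
        Finset.mem_powerset]
      constructor
      · intro h
        exact ⟨B ω, ⟨hB ω, h⟩, rfl⟩
      · rintro ⟨A, ⟨_, h⟩, rfl⟩
        exact h
    rw [h3]
    refine measureReal_biUnion_finset ?_ (fun A _ => dep_measurable (hdB A))
    intro A _ A' _ hne
    simp only [Function.onFun]
    rw [Set.disjoint_left]
    intro ω hω hω'
    exact hne (hω.symm.trans hω')
  have h4 : (⋃ A ∈ G, ({ω | B ω = A} ∩ Succ r m i A d)) ⊆ {ω | ω ∈ Succ r m i (B ω) d} := by
    intro ω hω
    simp only [Set.mem_iUnion, exists_prop] at hω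
    obtain ⟨A, _, h5, h6⟩ := hω
    simp only [Set.mem_ofPred_eq] at h5 ⊢
    rw [h5]
    exact h6
  have h5 : v * (law p).real {ω | g ≤ ((B ω).card : ℝ)} ≤
      (law p).real (⋃ A ∈ G, ({ω | B ω = A} ∩ Succ r m i A d)) := by
    rw [h1, h2, Finset.mul_sum]
    refine Finset.sum_le_sum (fun A hA => ?_)
    have hA' : A ⊆ Finset.range (m i) := Finset.mem_powerset.1 (Finset.mem_filter.1 hA).1
    rw [prob_inter hS (hdB A) (succ_dep hr i A hA' d), mul_comm]
    exact mul_le_mul_of_nonneg_left (hv A hA' (Finset.mem_filter.1 hA).2) measureReal_nonneg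
  have h6 := measureReal_mono (μ := law p) h4
  have h7 : (law p).real {ω | g ≤ ((B ω).card : ℝ)} ≤ 1 := measureReal_le_one
  have h8 : v - e ≤ v * (law p).real {ω | g ≤ ((B ω).card : ℝ)} := by
    rcases le_or_gt 0 v with h9 | h9
    · have := mul_le_mul_of_nonneg_left hcount h9
      nlinarith
    · have h10 : 0 ≤ (law p).real {ω | g ≤ ((B ω).card : ℝ)} := measureReal_nonneg
      nlinarith
  linarith

/-- the chain from the class `i` -/
theorem chain [hp : Fact (0 ≤ p ∧ p ≤ 1)] {r : ℕ} (hr : 1 ≤ r) {m : ℕ → ℕ} (hm : ∀ i, 0 < m i)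
    {q : ℕ → ℝ} (hq : ∀ i, 0 < q i) {k : ℕ}
    (hstep : ∀ i < k, q i ≤ 1 - Real.exp (-(p * (m (i + 1) * q (i + 1) ^ (r - 1) / 2)))) :
    ∀ i ≤ k, ∀ A ⊆ Finset.range (m i), ∀ d, (m i : ℝ) * q i ^ (r - 1) / 2 ≤ (A.card : ℝ) →
    1 - Real.exp (-(p * (m 0 * q 0 ^ (r - 1) / 2))) -
      ∑ l ∈ Finset.range i, 4 / (m l * q l ^ (r - 1)) ≤ (law p).real (Succ r m i A d) := by
  intro i
  induction i with
  | zero =>
    intro _ A hA d hg
    simp only [Finset.range_zero, Finset.sum_empty, sub_zero, Succ]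
    rw [nuc_prob hr]
    have := one_sub_pow_le_exp (p := p) hg
    linarith
  | succ i ih =>
    intro hi A hA d hg
    rw [Finset.sum_range_succ, ← sub_sub]
    have hmi : (0 : ℝ) < m i := by exact_mod_cast hm i
    have hqi := hq i
    refine combine hr (i := i) (d := !d) (fun ω => next r m i A d ω)
      (fun ω => next_subset) (next_dep hr hA) (shell_disj le_rfl)
      (g := (m i : ℝ) * q i ^ (r - 1) / 2) (by positivity) ?_
      (next_count hr (hm i) (hq i) hg (hstep i (by omega))) (fun A' hA' hg' =>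
        ih (by omega) A' hA' (!d) hg')
    have h1 : 0 ≤ ∑ l ∈ Finset.range i, 4 / (m l * q l ^ (r - 1)) :=
      Finset.sum_nonneg (fun l _ => by
        have := hq l
        positivity)
    have h2 := Real.exp_pos (-(p * (m 0 * q 0 ^ (r - 1) / 2)))
    linarith

/-- the sites used for the nucleation of a line by initial sites -/
noncomputable def nS1 (r : ℕ) (m : ℕ → ℕ) (i : ℕ) (l : ℕ) (j : ℕ) : Finset (ℤ × ℤ) :=
  by
    classical
    exact (Finset.range r).image (fun a => site true l (ln r m i j a))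

lemma mem_nS1 {r : ℕ} {m : ℕ → ℕ} {i l j : ℕ} {x : ℤ × ℤ} :
    x ∈ nS1 r m i l j ↔ ∃ a < r, site true l (ln r m i j a) = x := by
  simp only [nS1, Finset.mem_image, Finset.mem_range]

lemma nuc1_prob [hp : Fact (0 ≤ p ∧ p ≤ 1)] {r : ℕ} {m : ℕ → ℕ} {i l : ℕ} :
    (law p).real (nuc1 r m i l) = 1 - (1 - p ^ r) ^ (m i) := by
  classical
  have hblock : ∀ j, {ω : ℤ × ℤ → Bool | ∀ s ∈ nS1 r m i l j, ω s = true} =
      {ω | ∀ a ∈ Finset.range r, ω (site true l (ln r m i j a)) = true} := by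
    intro j
    ext ω
    simp only [Set.mem_ofPred_eq, mem_nS1, Finset.mem_range]
    constructor
    · intro h a ha
      exact h _ ⟨a, ha, rfl⟩
    · rintro h s ⟨a, ha, rfl⟩
      exact h a ha
  have hdep1 : ∀ j, DependsOn (fun ω => ω ∈ {ω : ℤ × ℤ → Bool | ∀ s ∈ nS1 r m i l j, ω s = true}ᶜ)
      (nS1 r m i l j : Set (ℤ × ℤ)) := by
    intro j x y hxy
    simp only [Set.mem_compl_iff, Set.mem_ofPred_eq, eq_iff_iff]
    refine not_congr (forall₂_congr (fun s hs => ?_))
    rw [hxy s hs]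
  have hdep2 : ∀ j, DependsOn (fun ω => ω ∈ {ω : ℤ × ℤ → Bool | ∀ s ∈ nS1 r m i l j, ω s = true})
      (nS1 r m i l j : Set (ℤ × ℤ)) := by
    intro j x y hxy
    simp only [Set.mem_ofPred_eq, eq_iff_iff]
    refine forall₂_congr (fun s hs => ?_)
    rw [hxy s hs]
  have h1 : (nuc1 r m i l)ᶜ = {ω | ∀ j ∈ Finset.range (m i),
      ω ∈ {ω : ℤ × ℤ → Bool | ∀ s ∈ nS1 r m i l j, ω s = true}ᶜ} := by
    ext ω
    simp only [hblock, nuc1, Set.mem_compl_iff, Set.mem_ofPred_eq, not_exists, not_and]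
  have hdisj : ((Finset.range (m i) : Finset ℕ) : Set ℕ).PairwiseDisjoint (nS1 r m i l) := by
    intro j _ j' _ hne
    simp only [Function.onFun]
    rw [Finset.disjoint_left]
    intro x hx hx'
    rw [mem_nS1] at hx hx'
    obtain ⟨a, ha, rfl⟩ := hx
    obtain ⟨a', ha', h2⟩ := hx'
    exact hne (ln_inj ha' ha (site_inj.1 h2).2).1.symm
  have h2 := prob_forall (p := p) (Finset.range (m i))
    (fun j => {ω : ℤ × ℤ → Bool | ∀ s ∈ nS1 r m i l j, ω s = true}ᶜ) (nS1 r m i l)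
    (fun j _ => hdep1 j) hdisj
  rw [← h1] at h2
  have h3 : ∀ j, (law p).real {ω : ℤ × ℤ → Bool | ∀ s ∈ nS1 r m i l j, ω s = true}ᶜ =
      1 - p ^ r := by
    intro j
    rw [probReal_compl_eq_one_sub (dep_measurable (hdep2 j)), prob_closed]
    have h4 : (nS1 r m i l j).card = r := by
      unfold nS1
      rw [Finset.card_image_of_injective, Finset.card_range]
      intro a a' h
      have := (site_inj.1 h).2
      unfold ln at this
      omega
    rw [h4]
    simp
  simp only [h3, Finset.prod_const, Finset.card_range] at h2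
  have h4 : MeasurableSet (nuc1 r m i l)ᶜ := by
    rw [h1]
    refine dep_measurable (S := (Finset.range (m i)).biUnion (nS1 r m i l)) ?_
    intro x y hxy
    simp only [Set.mem_ofPred_eq, eq_iff_iff]
    refine forall₂_congr (fun j hj => ?_)
    have := hdep1 j (x := x) (y := y) (fun s hs => hxy s (by
      simp only [Finset.coe_biUnion, Set.mem_iUnion]
      exact ⟨j, hj, hs⟩))
    simpa using this
  rw [probReal_compl_eq_one_sub h4.of_compl] at h2
  linarith

/-- the sites used for the nucleation of a line by initial sites, all blocks -/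
noncomputable def nS2 (r : ℕ) (m : ℕ → ℕ) (i : ℕ) (l : ℕ) : Finset (ℤ × ℤ) :=
  by
    classical
    exact (Finset.range (m i)).biUnion (nS1 r m i l)

lemma mem_nS2 {r : ℕ} {m : ℕ → ℕ} {i l : ℕ} {x : ℤ × ℤ} :
    x ∈ nS2 r m i l ↔ ∃ j < m i, ∃ a < r, site true l (ln r m i j a) = x := by
  simp only [nS2, Finset.mem_biUnion, Finset.mem_range, mem_nS1]

lemma nuc1_dep {r : ℕ} {m : ℕ → ℕ} {i l : ℕ} :
    DependsOn (fun ω => ω ∈ nuc1 r m i l) (nS2 r m i l : Set (ℤ × ℤ)) := by
  intro x y hxy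
  simp only [nuc1, Set.mem_ofPred_eq, eq_iff_iff, Finset.mem_range]
  refine exists_congr (fun j => and_congr_right (fun hj => forall₂_congr (fun a ha => ?_)))
  rw [hxy _ (by
    simp only [Finset.mem_coe, mem_nS2]
    exact ⟨j, hj, a, ha, rfl⟩)]

lemma nS2_subset {r : ℕ} {m : ℕ → ℕ} {i : ℕ} {l : ℕ} (hl : l < N r m i) :
    nS2 r m i l ⊆ shell (N r m i) (N r m (i + 1)) := by
  intro x hx
  rw [mem_nS2] at hx
  obtain ⟨j, hj, a, ha, rfl⟩ := hx
  have h1 := ln_lt (r := r) (m := m) (i := i) (j := j) (a := a) hj ha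
  have h2 := le_ln (r := r) (m := m) (i := i) (j := j) (a := a)
  exact mem_shell (by omega) h1 (le_max_of_le_right h2)

lemma first_count [hp : Fact (0 ≤ p ∧ p ≤ 1)] {r : ℕ} (hr : 1 ≤ r) {m : ℕ → ℕ} {i : ℕ}
    (hm : 0 < m i) {q : ℝ} (hq : 0 < q)
    (hstep : q ≤ 1 - Real.exp (-(p ^ r * m (i + 1)))) :
    1 - 4 / (m i * q ^ (r - 1)) ≤
      (law p).real {ω | (m i : ℝ) * q ^ (r - 1) / 2 ≤ ((first r m i ω).card : ℝ)} := by
  refine block_count hm (fun j a => nuc1 r m (i + 1) (ln r m i j a))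
    (fun j a => nS2 r m (i + 1) (ln r m i j a)) (fun _ _ _ _ => nuc1_dep) ?_ hq ?_ _
    (fun ω j => mem_first)
  · intro j hj a ha j' hj' a' ha' hne
    rw [Finset.disjoint_left]
    intro x hx hx'
    rw [mem_nS2] at hx hx'
    obtain ⟨b, _, c, _, rfl⟩ := hx
    obtain ⟨b', _, c', _, h2⟩ := hx'
    obtain ⟨h1, h2⟩ := ln_inj (by omega) (by omega) (site_inj.1 h2).1.symm
    rcases hne with h3 | h3
    · exact h3 h1
    · exact h3 h2
  · intro j hj a ha
    rw [nuc1_prob]
    have : Fact (0 ≤ p ^ r ∧ p ^ r ≤ 1) := ⟨pow_nonneg hp.1.1 r, pow_le_one₀ hp.1.1 hp.1.2⟩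
    have := one_sub_pow_le_exp (p := p ^ r) (n := m (i + 1)) (g := m (i + 1)) le_rfl
    linarith

/-- **The probability that the origin is occupied soon.** -/
theorem main_bound [hp : Fact (0 ≤ p ∧ p ≤ 1)] {r ρ : ℕ} (hr : 1 ≤ r) (hρ : r ≤ ρ)
    {m : ℕ → ℕ} (hm : ∀ i, 0 < m i)
    {q : ℕ → ℝ} (hq : ∀ i, 0 < q i) {k : ℕ}
    (hstep : ∀ i < k, q i ≤ 1 - Real.exp (-(p * (m (i + 1) * q (i + 1) ^ (r - 1) / 2))))
    (hfirst : q k ≤ 1 - Real.exp (-(p ^ r * m (k + 1)))) :
    1 - Real.exp (-(p * (m 0 * q 0 ^ (r - 1) / 2))) -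
      ∑ l ∈ Finset.range (k + 1), 4 / (m l * q l ^ (r - 1)) ≤
    (law p).real {ω | ((0, 0) : ℤ × ℤ) ∈ occ r ρ (init ω) (N r m (k + 2) + tau r m k)} := by
  have hmk : (0 : ℝ) < m k := by exact_mod_cast hm k
  have hqk := hq k
  have h1 : 1 - Real.exp (-(p * (m 0 * q 0 ^ (r - 1) / 2))) -
      ∑ l ∈ Finset.range (k + 1), 4 / (m l * q l ^ (r - 1)) ≤
      (law p).real {ω | ω ∈ Succ r m k (first r m k ω) true} := by
    rw [Finset.sum_range_succ, ← sub_sub]
    refine combine hr (i := k) (d := true) (fun ω => first r m k ω)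
      (fun ω => first_subset) (S := shell (N r m (k + 1)) (N r m (k + 2))) ?_
      (shell_disj le_rfl)
      (g := (m k : ℝ) * q k ^ (r - 1) / 2) (by positivity) ?_
      (first_count hr (hm k) (hq k) hfirst) (fun A' hA' hg' =>
        chain hr hm hq hstep k le_rfl A' hA' true hg')
    · intro x y hxy
      ext j
      simp only [mem_first]
      refine and_congr_right (fun hj => forall₂_congr (fun a ha => ?_))
      have ha' := Finset.mem_range.1 ha
      have h1 := nuc1_dep (r := r) (m := m) (i := k + 1) (l := ln r m k j a)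
        (x := x) (y := y) (fun s hs => hxy s (nS2_subset (ln_lt hj (by omega)) hs))
      simpa using h1
    · have h1 : 0 ≤ ∑ l ∈ Finset.range k, 4 / (m l * q l ^ (r - 1)) :=
        Finset.sum_nonneg (fun l _ => by
          have := hq l
          positivity)
      have h2 := Real.exp_pos (-(p * (m 0 * q 0 ^ (r - 1) / 2)))
      linarith
  refine h1.trans (measureReal_mono ?_)
  intro ω hω
  exact det_first hr hρ k ω hω

end Q287.LG
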