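import Mathlib

/-!
# Symmetric line growth: definitions used in the statement

Sites: `ℤ × ℤ`.  `armH ρ x`, `armV ρ x`: the horizontal and the vertical arm of radius `ρ` of the
site `x`.  `step r ρ ξ`: one step of the growth with threshold `r`.  `occ r ρ ξ t`: the occupied
set at time `t`.  `T r ρ ξ`: the first time at which the origin is occupied (`⊤` if there is none).
`law p`: the product measure on the configurations `ω : ℤ × ℤ → Bool` under which each `ω x` is
`true` with probability `p` (for `0 ≤ p ≤ 1`).  `init ω`: the initial set.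
-/

open MeasureTheory Filter Topology

set_option autoImplicit false

namespace Q287.LG

/-- the horizontal arm `x + ([-ρ, ρ] × {0})` -/
def armH (ρ : ℕ) (x : ℤ × ℤ) : Set (ℤ × ℤ) := {y | |y.1 - x.1| ≤ (ρ : ℤ) ∧ y.2 = x.2}

/-- the vertical arm `x + ({0} × [-ρ, ρ])` -/
def armV (ρ : ℕ) (x : ℤ × ℤ) : Set (ℤ × ℤ) := {y | y.1 = x.1 ∧ |y.2 - x.2| ≤ (ρ : ℤ)}

/-- one step: a site becomes occupied if at least `r` sites of its horizontal arm or at least `r`
sites of its vertical arm are occupied; occupied sites stay occupied -/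
def step (r ρ : ℕ) (ξ : Set (ℤ × ℤ)) : Set (ℤ × ℤ) :=
  ξ ∪ {x | r ≤ (armH ρ x ∩ ξ).ncard ∨ r ≤ (armV ρ x ∩ ξ).ncard}

/-- the occupied set at time `t` -/
def occ (r ρ : ℕ) (ξ : Set (ℤ × ℤ)) : ℕ → Set (ℤ × ℤ)
  | 0 => ξ
  | t + 1 => step r ρ (occ r ρ ξ t)

/-- the first time at which the origin is occupied -/
noncomputable def T (r ρ : ℕ) (ξ : Set (ℤ × ℤ)) : ℕ∞ :=
  sInf {n : ℕ∞ | ∃ t : ℕ, n = t ∧ ((0, 0) : ℤ × ℤ) ∈ occ r ρ ξ t}

/-- the Bernoulli measure on `Bool` with parameter `p` -/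
noncomputable def bern (p : ℝ) : Measure Bool :=
  ENNReal.ofReal p • Measure.dirac true + ENNReal.ofReal (1 - p) • Measure.dirac false

/-- the product measure on configurations -/
noncomputable def law (p : ℝ) : Measure (ℤ × ℤ → Bool) := Measure.infinitePi fun _ => bern p

/-- the initial set of a configuration -/
def init (ω : ℤ × ℤ → Bool) : Set (ℤ × ℤ) := {x | ω x = true}

/-- the probability that `T ≤ t` (`t` a real number) -/
noncomputable def probT (r ρ : ℕ) (p t : ℝ) : ℝ :=
  (law p).real {ω | ∃ s : ℕ, T r ρ (init ω) = (s : ℕ∞) ∧ (s : ℝ) ≤ t}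

end Q287.LG
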