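import Pool.Agent.Q287.LG.Defs

/-!
# Events that depend on finitely many sites
-/

open MeasureTheory Filter Topology ProbabilityTheory

set_option autoImplicit false

namespace Q287.LG

variable {p : ℝ}

instance bern_prob [hp : Fact (0 ≤ p ∧ p ≤ 1)] : IsProbabilityMeasure (bern p) := by
  constructor
  unfold bern
  simp only [Measure.coe_add, Measure.coe_smul, Pi.add_apply, Pi.smul_apply, measure_univ,
    smul_eq_mul, mul_one]
  rw [← ENNReal.ofReal_add hp.1.1 (by linarith [hp.1.2])]
  simp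

instance law_prob [hp : Fact (0 ≤ p ∧ p ≤ 1)] : IsProbabilityMeasure (law p) := by
  unfold law; infer_instance

theorem dep_indepFun [hp : Fact (0 ≤ p ∧ p ≤ 1)] {β γ : Type*} [MeasurableSpace β]
    [MeasurableSpace γ] [Nonempty β] [Nonempty γ] {S T : Finset (ℤ × ℤ)} (hST : Disjoint S T)
    {f : (ℤ × ℤ → Bool) → β} {g : (ℤ × ℤ → Bool) → γ}
    (hf : DependsOn f (S : Set (ℤ × ℤ))) (hg : DependsOn g (T : Set (ℤ × ℤ))) :
    IndepFun f g (law p) := by
  have h0 : iIndepFun (fun (i : ℤ × ℤ) (ω : ℤ × ℤ → Bool) => ω i) (law p) :=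
    iIndepFun_infinitePi (P := fun _ : ℤ × ℤ => bern p) (X := fun _ b => b)
      (fun _ => measurable_id)
  have h1 := h0.indepFun_finset S T hST (fun i => measurable_pi_apply i)
  rw [dependsOn_iff_exists_comp] at hf hg
  obtain ⟨f', rfl⟩ := hf
  obtain ⟨g', rfl⟩ := hg
  have hmf : Measurable f' := by
    have : Finite (↥(S : Set (ℤ × ℤ)) → Bool) := Pi.finite
    exact Measurable.of_discrete
  have hmg : Measurable g' := by
    have : Finite (↥(T : Set (ℤ × ℤ)) → Bool) := Pi.finite
    exact Measurable.of_discrete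
  exact h1.comp hmf hmg

theorem dep_measurable {D : Set (ℤ × ℤ → Bool)} {S : Finset (ℤ × ℤ)}
    (hD : DependsOn (fun ω => ω ∈ D) (S : Set (ℤ × ℤ))) : MeasurableSet D := by
  rw [dependsOn_iff_exists_comp] at hD
  obtain ⟨f', hf⟩ := hD
  have hmf : Measurable f' := by
    have : Finite (↥(S : Set (ℤ × ℤ)) → Bool) := Pi.finite
    exact Measurable.of_discrete
  have h : D = (f' ∘ (S : Set (ℤ × ℤ)).domRestrict) ⁻¹' {True} := by
    ext ω
    have := congrFun hf ω
    simp only [Set.mem_preimage, Set.mem_singleton_iff, eq_iff_iff, iff_true]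
    rw [← this]
  rw [h]
  exact (hmf.comp (measurable_pi_lambda _ (fun i => measurable_pi_apply _)))
    (MeasurableSet.of_discrete)

theorem prob_inter [hp : Fact (0 ≤ p ∧ p ≤ 1)] {D E : Set (ℤ × ℤ → Bool)} {S T : Finset (ℤ × ℤ)}
    (hST : Disjoint S T) (hD : DependsOn (fun ω => ω ∈ D) (S : Set (ℤ × ℤ)))
    (hE : DependsOn (fun ω => ω ∈ E) (T : Set (ℤ × ℤ))) :
    (law p).real (D ∩ E) = (law p).real D * (law p).real E := by
  have h := (dep_indepFun (p := p) hST hD hE).measure_inter_preimage_eq_mul {True} {True}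
    MeasurableSet.of_discrete MeasurableSet.of_discrete
  have h1 : (fun ω : ℤ × ℤ → Bool => ω ∈ D) ⁻¹' {True} = D := by
    ext ω; simp
  have h2 : (fun ω : ℤ × ℤ → Bool => ω ∈ E) ⁻¹' {True} = E := by
    ext ω; simp
  rw [h1, h2] at h
  simp only [Measure.real, h, ENNReal.toReal_mul]

/-- a family of events on disjoint finite sets of sites -/
theorem prob_forall [hp : Fact (0 ≤ p ∧ p ≤ 1)] {ι : Type*} [DecidableEq ι] (J : Finset ι)
    (F : ι → Set (ℤ × ℤ → Bool)) (S : ι → Finset (ℤ × ℤ))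
    (hdep : ∀ j ∈ J, DependsOn (fun ω => ω ∈ F j) (S j : Set (ℤ × ℤ)))
    (hdis : (J : Set ι).PairwiseDisjoint S) :
    (law p).real {ω | ∀ j ∈ J, ω ∈ F j} = ∏ j ∈ J, (law p).real (F j) := by
  induction J using Finset.induction_on with
  | empty => simp
  | insert a J ha ih =>
    rw [Finset.prod_insert ha, ← ih (fun j hj => hdep j (Finset.mem_insert_of_mem hj))
      (hdis.subset (by simp))]
    have h1 : {ω | ∀ j ∈ insert a J, ω ∈ F j} = F a ∩ {ω | ∀ j ∈ J, ω ∈ F j} := by
      ext ω; simp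
    rw [h1]
    refine prob_inter (S := S a) (T := J.biUnion S) ?_ (hdep a (Finset.mem_insert_self _ _)) ?_
    · rw [Finset.disjoint_biUnion_right]
      intro j hj
      exact hdis (by simp) (by simp [hj]) (by rintro rfl; exact ha hj)
    · intro x y hxy
      simp only [Set.mem_ofPred_eq, eq_iff_iff]
      refine forall₂_congr (fun j hj => ?_)
      have := hdep j (Finset.mem_insert_of_mem hj) (x := x) (y := y) (fun i hi => hxy i (by
        simp only [Finset.coe_biUnion, Set.mem_iUnion]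
        exact ⟨j, hj, hi⟩))
      simpa using this

/-- the probability that the sites of a finite set are vacant -/
theorem prob_closed [hp : Fact (0 ≤ p ∧ p ≤ 1)] (S : Finset (ℤ × ℤ)) (b : Bool) :
    (law p).real {ω | ∀ s ∈ S, ω s = b} = (if b then p else 1 - p) ^ S.card := by
  have h : {ω : ℤ × ℤ → Bool | ∀ s ∈ S, ω s = b} = Set.pi (S : Set (ℤ × ℤ)) (fun _ => {b}) := by
    ext ω; simp [Set.mem_pi]
  rw [h, Measure.real, law, Measure.infinitePi_pi _ (fun i _ => MeasurableSet.of_discrete)]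
  simp only [Finset.prod_const, ENNReal.toReal_pow]
  congr 1
  unfold bern
  cases b <;> simp [hp.1.1, hp.1.2]

/-- second moment bound for the number of events which occur -/
theorem count_lower [hp : Fact (0 ≤ p ∧ p ≤ 1)] {ι : Type*} [DecidableEq ι] (J : Finset ι)
    (F : ι → Set (ℤ × ℤ → Bool)) (S : ι → Finset (ℤ × ℤ))
    (hdep : ∀ j ∈ J, DependsOn (fun ω => ω ∈ F j) (S j : Set (ℤ × ℤ)))
    (hdis : (J : Set ι).PairwiseDisjoint S) {q : ℝ} (hq : 0 < q) (hJ : J.Nonempty)
    (h : ∀ j ∈ J, q ≤ (law p).real (F j)) (N : (ℤ × ℤ → Bool) → ℕ)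
    (hN : ∀ ω, (N ω : ℝ) = ∑ j ∈ J, (F j).indicator (fun _ => (1 : ℝ)) ω) :
    1 - 4 / (J.card * q) ≤ (law p).real {ω | (J.card : ℝ) * q / 2 ≤ (N ω : ℝ)} := by
  classical
  set X : ι → (ℤ × ℤ → Bool) → ℝ := fun j => (F j).indicator (fun _ => (1 : ℝ)) with hX
  have hmF : ∀ j ∈ J, MeasurableSet (F j) := fun j hj => dep_measurable (hdep j hj)
  have hmX : ∀ j ∈ J, Measurable (X j) := fun j hj => measurable_const.indicator (hmF j hj)
  have hmem : ∀ j ∈ J, MemLp (X j) 2 (law p) := by
    intro j hj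
    refine MemLp.of_bound (hmX j hj).aestronglyMeasurable 1 (Filter.Eventually.of_forall ?_)
    intro ω
    simp only [hX, Set.indicator]
    split_ifs <;> simp
  have hdX : ∀ j ∈ J, DependsOn (X j) (S j : Set (ℤ × ℤ)) := by
    intro j hj x y hxy
    have := hdep j hj hxy
    simp only [hX, Set.indicator]
    simp only [this]
  have hpair : Set.Pairwise (J : Set ι) fun i j => X i ⟂ᵢ[law p] X j := by
    intro i hi j hj hij
    exact dep_indepFun (hdis hi hj hij) (hdX i hi) (hdX j hj)
  have hvar := IndepFun.variance_sum hmem hpair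
  have hint : ∀ j ∈ J, ∫ ω, X j ω ∂(law p) = (law p).real (F j) := by
    intro j hj
    simp only [hX]
    rw [integral_indicator_const _ (hmF j hj)]
    simp
  have hvarj : ∀ j ∈ J, Var[X j; law p] ≤ (law p).real (F j) := by
    intro j hj
    refine (variance_le_expectation_sq (hmX j hj).aestronglyMeasurable).trans ?_
    rw [← hint j hj]
    apply le_of_eq
    apply integral_congr_ae
    refine Filter.Eventually.of_forall (fun ω => ?_)
    simp only [hX, Set.indicator, Pi.pow_apply]
    split_ifs <;> simp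
  set P : ℝ := ∑ j ∈ J, (law p).real (F j) with hP
  have hPq : J.card * q ≤ P := by
    rw [hP, ← nsmul_eq_mul, ← Finset.sum_const]
    exact Finset.sum_le_sum h
  have hcard : (0 : ℝ) < J.card := by exact_mod_cast hJ.card_pos
  have hP0 : 0 < P := lt_of_lt_of_le (by positivity) hPq
  have hE : ∫ ω, (∑ j ∈ J, X j) ω ∂(law p) = P := by
    simp only [Finset.sum_apply]
    rw [integral_finsetSum _ (fun j hj => (hmem j hj).integrable (by norm_num))]
    exact Finset.sum_congr rfl hint
  have hvarS : Var[∑ j ∈ J, X j; law p] ≤ P := by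
    rw [hvar]
    exact Finset.sum_le_sum hvarj
  have hmemS : MemLp (∑ j ∈ J, X j) 2 (law p) := memLp_finsetSum' J hmem
  have hch := meas_ge_le_variance_div_sq hmemS (c := P / 2) (by linarith)
  rw [hE] at hch
  have hch' : (law p).real {ω | P / 2 ≤ |(∑ j ∈ J, X j) ω - P|} ≤ P / (P / 2) ^ 2 := by
    have h1 : 0 ≤ Var[∑ j ∈ J, X j; law p] / (P / 2) ^ 2 :=
      div_nonneg (variance_nonneg _ _) (by positivity)
    rw [Measure.real]
    refine (ENNReal.toReal_mono ENNReal.ofReal_ne_top hch).trans ?_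
    rw [ENNReal.toReal_ofReal h1]
    exact div_le_div_of_nonneg_right hvarS (by positivity)
  have hcompl : {ω | (J.card : ℝ) * q / 2 ≤ (N ω : ℝ)}ᶜ ⊆
      {ω | P / 2 ≤ |(∑ j ∈ J, X j) ω - P|} := by
    intro ω hω
    simp only [Set.mem_compl_iff, Set.mem_ofPred_eq, not_le] at hω ⊢
    rw [hN] at hω
    have h2 : (∑ j ∈ J, X j) ω = ∑ j ∈ J, (F j).indicator (fun _ => (1 : ℝ)) ω := by
      simp [hX, Finset.sum_apply]
    rw [h2, abs_sub_comm]
    refine le_trans ?_ (le_abs_self _)
    linarith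
  have hms : MeasurableSet {ω | (J.card : ℝ) * q / 2 ≤ (N ω : ℝ)} := by
    have h3 : Measurable (fun ω => (N ω : ℝ)) := by
      have h4 : (fun ω => (N ω : ℝ)) = fun ω => ∑ j ∈ J, X j ω := by
        funext ω; rw [hN]
      rw [h4]
      exact Finset.measurable_sum J (fun j hj => hmX j hj)
    exact measurableSet_le measurable_const h3
  have h5 : (law p).real {ω | (J.card : ℝ) * q / 2 ≤ (N ω : ℝ)}ᶜ ≤ 4 / (J.card * q) := by
    refine (measureReal_mono hcompl).trans (hch'.trans ?_)
    have h6 : P / (P / 2) ^ 2 = 4 / P := by field_simp; ring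
    rw [h6]
    exact div_le_div_of_nonneg_left (by norm_num) (by positivity) hPq
  rw [probReal_compl_eq_one_sub hms] at h5
  linarith

end Q287.LG
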