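import Pool.Agent.Q287.LG.Chain

/-!
# Choice of the parameters
-/

open MeasureTheory Filter Topology ProbabilityTheory

set_option autoImplicit false

namespace Q287.LG

lemma half_min_le {y : ℝ} (hy : 0 ≤ y) : min 1 y / 2 ≤ 1 - Real.exp (-y) := by
  rcases le_or_gt 1 y with h | h
  · rw [min_eq_left h]
    have h1 : Real.exp (-y) ≤ Real.exp (-1) := Real.exp_le_exp.2 (by linarith)
    have h2 : Real.exp (-1) ≤ 1 / 2 := by
      rw [Real.exp_neg, ← one_div]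
      apply one_div_le_one_div_of_le (by norm_num)
      have := Real.add_one_le_exp (1 : ℝ)
      linarith
    linarith
  · rw [min_eq_right h.le]
    have h1 : Real.exp (-y) ≤ 1 - y / 2 := by
      rw [Real.exp_neg, inv_le_comm₀ (Real.exp_pos _) (by linarith)]
      have h2 := Real.add_one_le_exp y
      refine le_trans ?_ h2
      rw [inv_eq_one_div, div_le_iff₀ (by linarith)]
      nlinarith
    linarith

/-- growth factors -/
noncomputable def X (L : ℝ) (e : ℕ) : ℝ := 2 ^ (e + 5) * (L ^ 2 / 128) ^ (2 ^ e) / L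

/-- densities of full lines -/
noncomputable def q (L p : ℝ) (k i : ℕ) : ℝ := min (1 / 2) (p * X L (k - i))

/-- numbers of blocks -/
noncomputable def m (r : ℕ) (L p : ℝ) (k i : ℕ) : ℕ :=
  ⌈L * (1 / 2) ^ (k + 2 - i) * (1 / p) ^ (r - 1)⌉₊

lemma X_pos {L : ℝ} (hL : 0 < L) (e : ℕ) : 0 < X L e := by unfold X; positivity

lemma X_succ {L : ℝ} (hL : 0 < L) (e : ℕ) : X L (e + 1) = X L e ^ 2 * (L / 2 ^ (e + 4)) := by
  unfold X
  rw [pow_succ 2 e, pow_mul]
  field_simp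
  ring

lemma X_lower {L : ℝ} (hL : 256 ≤ L) (e : ℕ) : 2 ^ e * L / 4 ≤ X L e := by
  unfold X
  have hU : 1 ≤ L ^ 2 / 128 := by nlinarith
  have h1 : L ^ 2 / 128 ≤ (L ^ 2 / 128) ^ (2 ^ e) :=
    le_self_pow₀ hU (by positivity)
  rw [le_div_iff₀ (by linarith)]
  calc 2 ^ e * L / 4 * L = 2 ^ (e + 5) * (L ^ 2 / 128) := by ring
    _ ≤ _ := by gcongr

lemma X_large {L : ℝ} (hL : 256 ≤ L) (e : ℕ) : 2 ^ (2 ^ e) ≤ X L e := by
  unfold X
  have hL0 : 0 < L := by linarith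
  have hU : 2 * L ≤ L ^ 2 / 128 := by nlinarith
  have h1 : (2 * L) ^ (2 ^ e) ≤ (L ^ 2 / 128) ^ (2 ^ e) := by gcongr
  have h2 : L ≤ L ^ (2 ^ e) := le_self_pow₀ (by linarith) (by positivity)
  rw [le_div_iff₀ hL0]
  have h3 : (1 : ℝ) ≤ 2 ^ (e + 5) := one_le_pow₀ (by norm_num)
  calc (2 : ℝ) ^ (2 ^ e) * L ≤ 2 ^ (2 ^ e) * L ^ (2 ^ e) := by gcongr
    _ = (2 * L) ^ (2 ^ e) := by rw [mul_pow]
    _ ≤ (L ^ 2 / 128) ^ (2 ^ e) := h1
    _ ≤ 2 ^ (e + 5) * (L ^ 2 / 128) ^ (2 ^ e) := le_mul_of_one_le_left (by positivity) h3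

lemma q_pos {L p : ℝ} (hL : 0 < L) (hp : 0 < p) (k i : ℕ) : 0 < q L p k i := by
  unfold q
  have := X_pos hL (k - i)
  exact lt_min (by norm_num) (by positivity)

lemma m_lower (r : ℕ) (L p : ℝ) (k i : ℕ) :
    L * (1 / 2) ^ (k + 2 - i) * (1 / p) ^ (r - 1) ≤ m r L p k i := Nat.le_ceil _

lemma m_pos {r : ℕ} {L p : ℝ} (hL : 0 < L) (hp : 0 < p) (k i : ℕ) : 0 < m r L p k i := by
  unfold m
  rw [Nat.ceil_pos]
  positivity

/-- lower bound for the number of good blocks -/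
lemma good_lower {r : ℕ} (hr : 3 ≤ r) {L p c : ℝ} (hL : 0 < L) (hp : 0 < p) {k i : ℕ}
    (hc1 : 1 ≤ c) (hc : p * c ≤ q L p k i) :
    L * (1 / 2) ^ (k + 2 - i) * c ^ 2 ≤ m r L p k i * q L p k i ^ (r - 1) := by
  have h1 := m_lower r L p k i
  have h2 : (p * c) ^ (r - 1) ≤ q L p k i ^ (r - 1) := by gcongr
  have h3 : c ^ 2 ≤ c ^ (r - 1) := pow_le_pow_right₀ hc1 (by omega)
  calc L * (1 / 2) ^ (k + 2 - i) * c ^ 2 ≤ L * (1 / 2) ^ (k + 2 - i) * c ^ (r - 1) := by gcongr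
    _ = L * (1 / 2) ^ (k + 2 - i) * (1 / p) ^ (r - 1) * (p * c) ^ (r - 1) := by
        rw [mul_assoc, mul_assoc, mul_assoc, ← mul_pow]
        congr 3
        field_simp
    _ ≤ m r L p k i * q L p k i ^ (r - 1) := by gcongr

lemma hstep_num {r : ℕ} (hr : 3 ≤ r) {L p : ℝ} (hL : 256 ≤ L) (hp : 0 < p) {k : ℕ}
    (hk : p * 2 ^ k ≤ 1 / 16) (hp2 : p ≤ 1 / 2) {i : ℕ} (hi : i < k) :
    q L p k i ≤ 1 - Real.exp (-(p * (m r L p k (i + 1) * q L p k (i + 1) ^ (r - 1) / 2))) := by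
  have hL0 : 0 < L := by linarith
  obtain ⟨e, he⟩ : ∃ e, k - i = e + 1 := ⟨k - i - 1, by omega⟩
  have he1 : k - (i + 1) = e := by omega
  have he2 : k + 2 - (i + 1) = e + 2 := by omega
  have hq0 := q_pos hL0 hp k (i + 1)
  set y := p * (m r L p k (i + 1) * q L p k (i + 1) ^ (r - 1) / 2) with hy
  have hy0 : 0 ≤ y := by positivity
  refine le_trans ?_ (half_min_le hy0)
  have hX := X_lower hL e
  have hpow : (1 : ℝ) ≤ 2 ^ e := one_le_pow₀ (by norm_num)
  have hX1 : 1 ≤ X L e := by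
    refine le_trans ?_ hX
    nlinarith
  rcases le_or_gt (p * X L e) (1 / 2) with h | h
  · have h1 : q L p k (i + 1) = p * X L e := by
      unfold q; rw [he1, min_eq_right h]
    have h2 := good_lower hr hL0 hp (k := k) (i := i + 1) (c := X L e) hX1 h1.ge
    rw [he2] at h2
    have h3 : 2 * (p * X L (e + 1)) ≤ y := by
      have h4 : p / 2 * (L * (1 / 2) ^ (e + 2) * X L e ^ 2) ≤
          p / 2 * (m r L p k (i + 1) * q L p k (i + 1) ^ (r - 1)) := by gcongr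
      have h5 : p / 2 * (L * (1 / 2) ^ (e + 2) * X L e ^ 2) = 2 * (p * X L (e + 1)) := by
        rw [X_succ hL0, one_div, inv_pow]
        field_simp
        ring
      rw [h5] at h4
      refine h4.trans (le_of_eq ?_)
      rw [hy]; ring
    unfold q
    rw [he, le_div_iff₀ (by norm_num), min_mul_of_nonneg _ _ (by norm_num)]
    refine min_le_min (by norm_num) (by linarith)
  · have h1 : q L p k (i + 1) = 1 / 2 := by
      unfold q; rw [he1, min_eq_left h.le]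
    have h2 := good_lower hr hL0 hp (k := k) (i := i + 1) (c := 1 / (2 * p))
      (by rw [le_div_iff₀ (by linarith)]; linarith) (by rw [h1]; apply le_of_eq; field_simp)
    rw [he2] at h2
    have h3 : 1 ≤ y := by
      have h4 : p / 2 * (L * (1 / 2) ^ (e + 2) * (1 / (2 * p)) ^ 2) ≤
          p / 2 * (m r L p k (i + 1) * q L p k (i + 1) ^ (r - 1)) := by gcongr
      have h5 : p / 2 * (L * (1 / 2) ^ (e + 2) * (1 / (2 * p)) ^ 2) = L / (p * 2 ^ (e + 5)) := by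
        rw [one_div, inv_pow]
        field_simp
        ring
      have h6 : 1 ≤ L / (p * 2 ^ (e + 5)) := by
        rw [le_div_iff₀ (by positivity), one_mul]
        have h7 : (2 : ℝ) ^ (e + 5) ≤ 2 ^ k * 16 := by
          have h8 : (2 : ℝ) ^ (e + 1) ≤ 2 ^ k := pow_le_pow_right₀ (by norm_num) (by omega)
          calc (2 : ℝ) ^ (e + 5) = 2 ^ (e + 1) * 16 := by ring
            _ ≤ _ := by gcongr
        calc p * 2 ^ (e + 5) ≤ p * (2 ^ k * 16) := by gcongr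
          _ = p * 2 ^ k * 16 := by ring
          _ ≤ 1 / 16 * 16 := by gcongr
          _ ≤ L := by linarith
      rw [h5] at h4
      refine (h6.trans h4).trans (le_of_eq ?_)
      rw [hy]; ring
    rw [min_eq_left h3]
    exact min_le_left _ _

lemma hfirst_num {r : ℕ} (hr : 3 ≤ r) {L p : ℝ} (hL : 256 ≤ L) (hp : 0 < p) {k : ℕ} :
    q L p k k ≤ 1 - Real.exp (-(p ^ r * m r L p k (k + 1))) := by
  have hL0 : 0 < L := by linarith
  refine le_trans ?_ (half_min_le (by positivity))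
  have h1 := m_lower r L p k (k + 1)
  rw [show k + 2 - (k + 1) = 1 by omega] at h1
  have h2 : p * L / 2 ≤ p ^ r * m r L p k (k + 1) := by
    calc p * L / 2 = p ^ r * (L * (1 / 2) ^ 1 * (1 / p) ^ (r - 1)) := by
          obtain ⟨s, rfl⟩ : ∃ s, r = s + 1 := ⟨r - 1, by omega⟩
          rw [Nat.add_sub_cancel, pow_succ, one_div_pow p s, pow_one]
          field_simp
      _ ≤ _ := by gcongr
  unfold q
  rw [Nat.sub_self, le_div_iff₀ (by norm_num), min_mul_of_nonneg _ _ (by norm_num)]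
  refine min_le_min (by norm_num) ?_
  have h3 : X L 0 = L / 4 := by
    unfold X
    field_simp
    norm_num
    ring
  rw [h3]
  linarith

lemma sum_num {r : ℕ} (hr : 3 ≤ r) {L p : ℝ} (hL : 256 ≤ L) (hp : 0 < p) {k : ℕ}
    (hk : p * 2 ^ k * L ≤ 1) :
    ∑ l ∈ Finset.range (k + 1), 4 / (m r L p k l * q L p k l ^ (r - 1)) ≤ 512 / L ^ 3 := by
  have hL0 : 0 < L := by linarith
  have h1 : ∀ l ∈ Finset.range (k + 1), 4 / (m r L p k l * q L p k l ^ (r - 1)) ≤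
      256 / L ^ 3 * (1 / 2) ^ (k - l) := by
    intro l hl
    have hl' : l ≤ k := by have := Finset.mem_range.1 hl; omega
    have hpow : (1 : ℝ) ≤ 2 ^ (k - l) := one_le_pow₀ (by norm_num)
    have h2 : p * (2 ^ (k - l) * L / 4) ≤ q L p k l := by
      unfold q
      refine le_min ?_ ?_
      · have h3 : (2 : ℝ) ^ (k - l) ≤ 2 ^ k := pow_le_pow_right₀ (by norm_num) (by omega)
        have h4 : p * (2 ^ (k - l) * L / 4) ≤ p * (2 ^ k * L / 4) := by gcongr
        linarith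
      · have := X_lower hL (k - l)
        gcongr
    have h3 := good_lower hr hL0 hp (k := k) (i := l) (c := 2 ^ (k - l) * L / 4)
      (by nlinarith) h2
    have h4 : L * (1 / 2) ^ (k + 2 - l) * (2 ^ (k - l) * L / 4) ^ 2 =
        L ^ 3 * 2 ^ (k - l) / 64 := by
      rw [show k + 2 - l = (k - l) + 2 by omega, one_div, inv_pow]
      field_simp
      ring
    rw [h4] at h3
    calc 4 / (m r L p k l * q L p k l ^ (r - 1)) ≤ 4 / (L ^ 3 * 2 ^ (k - l) / 64) :=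
          div_le_div_of_nonneg_left (by norm_num) (by positivity) h3
      _ = 256 / L ^ 3 * (1 / 2) ^ (k - l) := by
          rw [one_div, inv_pow]
          field_simp
          norm_num
  refine (Finset.sum_le_sum h1).trans ?_
  rw [← Finset.mul_sum]
  have h2 : ∑ l ∈ Finset.range (k + 1), (1 / 2 : ℝ) ^ (k - l) ≤ 2 := by
    have h3 := Finset.sum_range_reflect (fun l => (1 / 2 : ℝ) ^ l) (k + 1)
    simp only [Nat.add_sub_cancel] at h3
    rw [h3]
    have h4 := geom_sum_eq (show (1 / 2 : ℝ) ≠ 1 by norm_num) (k + 1)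
    rw [h4]
    have h5 : (0 : ℝ) ≤ (1 / 2) ^ (k + 1) := by positivity
    rw [div_le_iff_of_neg (by norm_num)]
    linarith
  calc 256 / L ^ 3 * ∑ l ∈ Finset.range (k + 1), (1 / 2 : ℝ) ^ (k - l) ≤ 256 / L ^ 3 * 2 := by
        gcongr
    _ = 512 / L ^ 3 := by ring

lemma last_num {r : ℕ} (hr : 3 ≤ r) {L p : ℝ} (hL : 256 ≤ L) (hp : 0 < p) {k : ℕ}
    (hk : p * 2 ^ k * L ≤ 1) (hk' : 1 / p ≤ 2 ^ (2 ^ k)) (hp2 : p ≤ 1 / 2) :
    Real.exp (-(p * (m r L p k 0 * q L p k 0 ^ (r - 1) / 2))) ≤ 8 / L ^ 3 := by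
  have hL0 : 0 < L := by linarith
  have h1 : q L p k 0 = 1 / 2 := by
    unfold q
    rw [Nat.sub_zero]
    apply min_eq_left
    have h2 := X_large hL k
    have h3 : 1 / p ≤ X L k := hk'.trans h2
    rw [div_le_iff₀ hp] at h3
    linarith
  have h2 := good_lower hr hL0 hp (k := k) (i := 0) (c := 1 / (2 * p))
    (by rw [le_div_iff₀ (by linarith)]; linarith) (by rw [h1]; apply le_of_eq; field_simp)
  rw [Nat.sub_zero] at h2
  set y := p * (m r L p k 0 * q L p k 0 ^ (r - 1) / 2) with hy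
  have h3 : L ^ 2 / 32 ≤ y := by
    have h4 : p / 2 * (L * (1 / 2) ^ (k + 2) * (1 / (2 * p)) ^ 2) ≤
        p / 2 * (m r L p k 0 * q L p k 0 ^ (r - 1)) := by gcongr
    have h5 : p / 2 * (L * (1 / 2) ^ (k + 2) * (1 / (2 * p)) ^ 2) = L / (32 * (p * 2 ^ k)) := by
      rw [one_div, inv_pow]
      field_simp
      ring
    have h6 : L ^ 2 / 32 ≤ L / (32 * (p * 2 ^ k)) := by
      rw [div_le_div_iff₀ (by norm_num) (by positivity)]
      nlinarith
    rw [h5] at h4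
    refine (h6.trans h4).trans (le_of_eq ?_)
    rw [hy]; ring
  have h4 : 0 < y := lt_of_lt_of_le (by positivity) h3
  have h5 : y ^ 2 / 2 ≤ Real.exp y := by
    have := Real.quadratic_le_exp_of_nonneg h4.le
    linarith
  rw [Real.exp_neg, inv_le_comm₀ (Real.exp_pos _) (by positivity)]
  refine le_trans ?_ h5
  rw [inv_div]
  have h6 : (L ^ 2 / 32) ^ 2 ≤ y ^ 2 := by gcongr
  nlinarith [pow_pos hL0 3]

lemma N_upper {r : ℕ} {L p : ℝ} (hL : 0 < L) (hp : 0 < p) {k : ℕ} : ∀ i, i ≤ k + 2 →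
    (N r (m r L p k) i : ℝ) ≤ 1 + r * i + r * L * (1 / p) ^ (r - 1) * 2 ^ i / 2 ^ (k + 2) := by
  intro i
  induction i with
  | zero =>
    intro _
    have h : 0 ≤ (r : ℝ) * L * (1 / p) ^ (r - 1) * 2 ^ 0 / 2 ^ (k + 2) := by positivity
    simp only [N]
    push_cast
    linarith
  | succ i ih =>
    intro hi
    have h1 := ih (by omega)
    have h2 : (m r L p k i : ℝ) ≤ L * (1 / 2) ^ (k + 2 - i) * (1 / p) ^ (r - 1) + 1 := by
      unfold m
      exact (Nat.ceil_lt_add_one (by positivity)).le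
    have h3 : ((1 : ℝ) / 2) ^ (k + 2 - i) = 2 ^ i / 2 ^ (k + 2) := by
      rw [one_div, inv_pow, inv_eq_one_div, div_eq_div_iff (by positivity) (by positivity),
        ← pow_add, one_mul]
      congr 1
      omega
    rw [h3] at h2
    rw [N]
    push_cast
    have h4 : (r : ℝ) * m r L p k i ≤
        r * (L * (2 ^ i / 2 ^ (k + 2)) * (1 / p) ^ (r - 1) + 1) := by gcongr
    calc (N r (m r L p k) i : ℝ) + r * m r L p k i
        ≤ 1 + r * i + r * L * (1 / p) ^ (r - 1) * 2 ^ i / 2 ^ (k + 2) +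
          r * (L * (2 ^ i / 2 ^ (k + 2)) * (1 / p) ^ (r - 1) + 1) := add_le_add h1 h4
      _ = 1 + r * (i + 1) + r * L * (1 / p) ^ (r - 1) * 2 ^ (i + 1) / 2 ^ (k + 2) := by
          rw [pow_succ]; ring

lemma tau_upper {r : ℕ} {L p : ℝ} (hL : 0 < L) (hp : 0 < p) {k : ℕ} : ∀ i, i ≤ k →
    (tau r (m r L p k) i : ℝ) ≤ (i + 1) * (1 + r * (k + 2)) +
      r * L * (1 / p) ^ (r - 1) * 2 ^ (i + 2) / 2 ^ (k + 2) := by
  intro i
  induction i with
  | zero =>
    intro _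
    have h1 := N_upper (r := r) hL hp (k := k) 1 (by omega)
    rw [tau]
    have h2 : 0 ≤ (r : ℝ) * L * (1 / p) ^ (r - 1) / 2 ^ (k + 2) := by positivity
    have h3 : 0 ≤ (r : ℝ) * k := by positivity
    have h4 : 0 ≤ (r : ℝ) := by positivity
    push_cast at h1 ⊢
    have h5 : (r : ℝ) * L * (1 / p) ^ (r - 1) * 2 ^ 1 / 2 ^ (k + 2) =
      2 * ((r : ℝ) * L * (1 / p) ^ (r - 1) / 2 ^ (k + 2)) := by ring
    have h6 : (r : ℝ) * L * (1 / p) ^ (r - 1) * 2 ^ (0 + 2) / 2 ^ (k + 2) =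
      4 * ((r : ℝ) * L * (1 / p) ^ (r - 1) / 2 ^ (k + 2)) := by ring
    rw [h5] at h1
    rw [h6]
    nlinarith
  | succ i ih =>
    intro hi
    have h1 := ih (by omega)
    have h2 := N_upper (r := r) hL hp (k := k) (i + 2) (by omega)
    rw [tau]
    push_cast at h2 ⊢
    have h3 : (r : ℝ) * (i + 2) ≤ r * (k + 2) := by
      have : (i : ℝ) ≤ k := by exact_mod_cast (by omega : i ≤ k)
      gcongr
    have h4 : (r : ℝ) * L * (1 / p) ^ (r - 1) * 2 ^ (i + 1 + 2) / 2 ^ (k + 2) =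
      2 * ((r : ℝ) * L * (1 / p) ^ (r - 1) * 2 ^ (i + 2) / 2 ^ (k + 2)) := by ring
    rw [h4]
    nlinarith

lemma time_num {r : ℕ} (hr : 3 ≤ r) {L p : ℝ} (hL : 256 ≤ L) (hp : 0 < p) (hp1 : p ≤ 1) {k : ℕ}
    (hk : p * 4 ^ k ≤ 1) :
    ((N r (m r L p k) (k + 2) + tau r (m r L p k) k : ℕ) : ℝ) ≤ 3 * r * L / p ^ (r - 1) := by
  have hL0 : 0 < L := by linarith
  have h1 := N_upper (r := r) hL0 hp (k := k) (k + 2) le_rfl
  have h2 := tau_upper (r := r) hL0 hp (k := k) k le_rfl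
  set A := (r : ℝ) * L * (1 / p) ^ (r - 1) with hA
  have h3 : A * 2 ^ (k + 2) / 2 ^ (k + 2) = A := by field_simp
  rw [h3] at h1 h2
  have hk2 : ((k : ℝ) + 2) ^ 2 ≤ 4 * 4 ^ k := by
    have h4 : (k : ℝ) + 2 ≤ 2 * 2 ^ k := by
      have h5 : k + 1 ≤ 2 ^ k := Nat.lt_two_pow_self
      have h6 : (k : ℝ) + 1 ≤ 2 ^ k := by exact_mod_cast h5
      have h7 : (0:ℝ) ≤ k := by positivity
      linarith
    calc ((k : ℝ) + 2) ^ 2 ≤ (2 * 2 ^ k) ^ 2 := by gcongr
      _ = 4 * 4 ^ k := by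
          rw [mul_pow, ← pow_mul, mul_comm k 2, pow_mul]; norm_num
  have hr1 : (3 : ℝ) ≤ r := by exact_mod_cast hr
  have h5 : (4 : ℝ) ^ k ≤ 1 / p := by rw [le_div_iff₀ hp]; linarith
  have h6 : 1 / p ≤ (1 / p) ^ (r - 1) :=
    le_self_pow₀ (by rw [le_div_iff₀ hp]; linarith) (by omega)
  have h7 : ((k : ℝ) + 2) * (1 + r * (k + 2)) ≤ A := by
    have h8 : ((k : ℝ) + 2) * (1 + r * (k + 2)) ≤ 2 * r * (k + 2) ^ 2 := by
      have h9 : (0 : ℝ) ≤ k := by positivity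
      nlinarith [mul_nonneg (by linarith : (0:ℝ) ≤ r - 1) (by positivity : (0:ℝ) ≤ (k : ℝ) + 2),
        mul_nonneg (mul_nonneg (by linarith : (0:ℝ) ≤ r - 1) (by positivity : (0:ℝ) ≤ (k : ℝ) + 2))
          h9]
    have h9 : 2 * (r : ℝ) * (k + 2) ^ 2 ≤ 2 * r * (4 * (1 / p) ^ (r - 1)) := by
      have : ((k : ℝ) + 2) ^ 2 ≤ 4 * (1 / p) ^ (r - 1) := by linarith
      gcongr
    have h10 : 2 * r * (4 * (1 / p) ^ (r - 1)) ≤ A := by
      rw [hA]
      have h11 : 0 ≤ (r : ℝ) * (1 / p) ^ (r - 1) := by positivity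
      nlinarith
    linarith
  have h8 : 3 * r * L / p ^ (r - 1) = 3 * A := by
    rw [hA, one_div, inv_pow]
    field_simp
  rw [h8]
  push_cast at h1 ⊢
  nlinarith

lemma exists_k {p : ℝ} (hp : 0 < p) (hp1 : p ≤ 1 / 64) :
    ∃ k : ℕ, 1 / p ≤ 2 ^ (2 ^ k) ∧ p * 4 ^ k ≤ 1 := by
  have hex : ∃ k : ℕ, 1 / p ≤ 2 ^ (2 ^ k) := by
    obtain ⟨n, hn⟩ := pow_unbounded_of_one_lt (1 / p) (show (1 : ℝ) < 2 by norm_num)
    refine ⟨n, hn.le.trans (pow_le_pow_right₀ (by norm_num) Nat.lt_two_pow_self.le)⟩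
  classical
  refine ⟨Nat.find hex, Nat.find_spec hex, ?_⟩
  rcases Nat.eq_zero_or_pos (Nat.find hex) with h | h
  · rw [h]; linarith
  · obtain ⟨k, hk⟩ : ∃ k, Nat.find hex = k + 1 := ⟨Nat.find hex - 1, by omega⟩
    have h1 : ¬ (1 / p ≤ 2 ^ (2 ^ k)) := Nat.find_min hex (by omega)
    rw [hk]
    push Not at h1
    have h2 : (4 : ℝ) ^ (k + 1) ≤ 1 / p := by
      rcases Nat.lt_or_ge k 3 with h3 | h3
      · have h4 : (4 : ℝ) ^ (k + 1) ≤ 4 ^ 3 := pow_le_pow_right₀ (by norm_num) (by omega)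
        have h5 : (64 : ℝ) ≤ 1 / p := by rw [le_div_iff₀ hp]; linarith
        norm_num at h4
        linarith
      · have h4 : 2 * (k + 1) ≤ 2 ^ k := by
          induction k, h3 using Nat.le_induction with
          | base => norm_num
          | succ n hn _ =>
            have : ∀ n ≥ 3, 2 * (n + 1) ≤ 2 ^ n := by
              intro n hn
              induction n, hn using Nat.le_induction with
              | base => norm_num
              | succ n hn ih => rw [pow_succ]; omega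
            exact this (n + 1) (by omega)
        have h5 : (4 : ℝ) ^ (k + 1) = 2 ^ (2 * (k + 1)) := by
          rw [pow_mul]; norm_num
        rw [h5]
        exact (pow_le_pow_right₀ (by norm_num) h4).trans h1.le
    rw [le_div_iff₀ hp] at h2
    linarith

/-- the bound for the probability that the origin is occupied -/
theorem quant {r ρ : ℕ} (hr : 3 ≤ r) (hρ : r ≤ ρ) {p L : ℝ} (hp : 0 < p) (hL : 256 ≤ L)
    (hpL : L ^ 2 * p ≤ 1) :
    ∃ s : ℕ, (s : ℝ) ≤ 3 * r * L / p ^ (r - 1) ∧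
    1 - 1000 / L ^ 3 ≤ (law p).real {ω | ((0, 0) : ℤ × ℤ) ∈ occ r ρ (init ω) s} := by
  have hL0 : 0 < L := by linarith
  have hp64 : p ≤ 1 / 65536 := by
    rw [le_div_iff₀ (by norm_num)]
    have h1 : 65536 ≤ L ^ 2 := by nlinarith
    have h2 : p * 65536 ≤ p * L ^ 2 := by gcongr
    linarith
  have : Fact (0 ≤ p ∧ p ≤ 1) := ⟨hp.le, by linarith⟩
  obtain ⟨k, hk1, hk2⟩ := exists_k hp (by linarith)
  have h4 : (4 : ℝ) ^ k = (2 ^ k) ^ 2 := by
    rw [← pow_mul, mul_comm k 2, pow_mul]; norm_num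
  have hk3 : p * 2 ^ k * L ≤ 1 := by
    have h5 : (p * 2 ^ k * L) ^ 2 ≤ 1 ^ 2 := by
      calc (p * 2 ^ k * L) ^ 2 = (p * 4 ^ k) * (L ^ 2 * p) := by rw [h4]; ring
        _ ≤ 1 * 1 := by gcongr
        _ = 1 ^ 2 := by norm_num
    exact le_of_sq_le_sq h5 (by norm_num)
  have hk4 : p * 2 ^ k ≤ 1 / 16 := by
    have h5 : p * 2 ^ k * 256 ≤ p * 2 ^ k * L := by gcongr
    linarith
  refine ⟨N r (m r L p k) (k + 2) + tau r (m r L p k) k, time_num hr hL hp (by linarith) hk2, ?_⟩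
  have h5 := main_bound (p := p) (r := r) (ρ := ρ) (by omega) hρ (m := m r L p k)
    (fun i => m_pos hL0 hp k i) (q := q L p k) (fun i => q_pos hL0 hp k i) (k := k)
    (fun i hi => hstep_num hr hL hp hk4 (by linarith) hi) (hfirst_num hr hL hp)
  have h6 := sum_num hr hL hp hk3
  have h7 := last_num hr hL hp hk3 hk1 (by linarith)
  have h8 : 1000 / L ^ 3 = 512 / L ^ 3 + 8 / L ^ 3 + 480 / L ^ 3 := by ring
  have h9 : 0 ≤ 480 / L ^ 3 := by positivity
  linarith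

end Q287.LG
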